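import Pool.Agent.H.MP_7b2682_an.C

open Filter Topology Set

namespace Pool.Agent.Results.MP_cd1425_an.Frequent

/-- proportion of `A` in `[0, N]` -/
noncomputable def prop (A : Set ℕ) (N : ℕ) : ℝ := ((A ∩ Icc 0 N).ncard : ℝ) / (N + 1)

/-- frequently recurrent points -/
def FRec {X : Type} [TopologicalSpace X] (T : X → X) : Set X :=
  {x | ∀ U ∈ 𝓝 x, 0 < liminf (prop {n | T^[n] x ∈ U}) atTop}

/-- U-frequently recurrent points -/
def UFRec {X : Type} [TopologicalSpace X] (T : X → X) : Set X :=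
  {x | ∀ U ∈ 𝓝 x, 0 < limsup (prop {n | T^[n] x ∈ U}) atTop}

theorem result (𝕜 : Type) [RCLike 𝕜] :
    ∃ (X : Type) (_ : NormedAddCommGroup X) (_ : NormedSpace 𝕜 X) (_ : CompleteSpace X)
      (T : X →L[𝕜] X), Dense (FRec T) ∧ Dense (UFRec T) ∧ ∀ r : ℕ, 2 ≤ r →
        ¬ Dense (FRec fun (v : Fin r → X) (i : Fin r) => T (v i)) ∧
        ¬ Dense (UFRec fun (v : Fin r → X) (i : Fin r) => T (v i)) := by
  have p0 (A N) : 0 ≤ prop A N := by unfold prop; positivity
  have p1 (A N) : prop A N ≤ 1 := by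
    apply div_le_one_of_le₀ _ (by positivity)
    have := ncard_le_ncard (inter_subset_right (s := A) (t := Icc 0 N)) (finite_Icc _ _)
    rw [← Finset.coe_Icc, ncard_coe_finset, Nat.card_Icc] at this
    rw [← Finset.coe_Icc]
    exact_mod_cast this
  have sub {Y : Type} [TopologicalSpace Y] (S : Y → Y) : FRec S ⊆ UFRec S := fun x hx U hU =>
    (hx U hU).trans_le (liminf_le_limsup (isBoundedUnder_of ⟨1, p1 _⟩) (isBoundedUnder_of ⟨0, p0 _⟩))
  let T := H.MP_7b2682_an.T 𝕜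
  have d : Dense (FRec T) := H.MP_7b2682_an.fr_dense.mono fun v hv U hU => by
    obtain ⟨δ, hδ, N₀, hN⟩ := hv U hU
    refine (half_pos hδ).trans_le (le_liminf_of_le (isCoboundedUnder_ge_of_le atTop (p1 _)) ?_)
    filter_upwards [eventually_ge_atTop N₀, eventually_ge_atTop 1] with N h1 h2
    have c := ncard_le_ncard (s := {n : ℕ | 1 ≤ n ∧ n ≤ N ∧ (T ^ n) v ∈ U})
      (t := {n | T^[n] v ∈ U} ∩ Icc 0 N) (fun n hn => ⟨by
        simpa only [FunLike.coe_pow_eq_iterate, mem_ofPred_eq] using hn.2.2, n.zero_le, hn.2.1⟩)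
      ((finite_Icc _ _).inter_of_right _)
    have c2 := (hN N h1).trans (Nat.cast_le.2 c)
    have : (1 : ℝ) ≤ N := by exact_mod_cast h2
    rw [prop, le_div_iff₀ (by positivity)]
    nlinarith
  refine ⟨_, inferInstance, inferInstance, inferInstance, T, d, d.mono (sub _), fun r hr => ?_⟩
  suffices h : _ from ⟨fun k => h (k.mono (sub _)), h⟩
  intro h
  let i : Fin r := ⟨0, by omega⟩
  let j : Fin r := ⟨1, by omega⟩
  obtain ⟨v, h1, h2⟩ := h.exists_mem_open (U := {v | (v i).1.1 * (v j).1.2 - (v j).1.1 * (v i).1.2 ≠ 0})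
    (isOpen_ne_fun (by fun_prop) continuous_const)
    ⟨fun k => if k = i then ((1, 0), 0) else ((0, 1), 0), by simp [i, j]⟩
  set d := (v i).1.1 * (v j).1.2 - (v j).1.1 * (v i).1.2 with hd
  let P : (Fin r → H.MP_7b2682_an.X 𝕜) → H.MP_7b2682_an.X 𝕜 :=
    fun w => (-(v j).1.1 / d) • w i + ((v i).1.1 / d) • w j
  have e : (P v).1 = (0, 1) := by
    have h3 : d ≠ 0 := h2
    refine Prod.ext ?_ ?_
    · change -(v j).1.1 / d * (v i).1.1 + (v i).1.1 / d * (v j).1.1 = 0
      ring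
    · change -(v j).1.1 / d * (v i).1.2 + (v i).1.1 / d * (v j).1.2 = 1
      field_simp
      rw [hd]; ring
  have it (n : ℕ) : P ((fun (v : Fin r → _) (i : Fin r) => T (v i))^[n] v) = (T ^ n) (P v) := by
    induction n with
    | zero => rfl
    | succ n ih =>
      rw [Function.iterate_succ_apply', pow_succ', mul_apply_eq_comp, ← ih]
      simp only [P, map_add, map_smul]
  have hP : Continuous P := by fun_prop
  have h4 := h1 _ (hP.continuousAt (Metric.ball_mem_nhds (P v) (show (0 : ℝ) < 1 / 4 by norm_num)))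
  obtain ⟨δ, hδ, h5⟩ := exists_between h4
  obtain ⟨M₀, hM⟩ := H.MP_7b2682_an.block e (half_pos hδ)
  obtain ⟨M₁, hM1⟩ := exists_nat_gt (1 / (δ / 2))
  obtain ⟨N, h6, h7, h8⟩ := ((frequently_lt_of_lt_limsup (isCoboundedUnder_le_of_le atTop (p0 _))
    h5).and_eventually ((eventually_gt_atTop M₀).and (eventually_gt_atTop M₁))).exists
  have c := (ncard_le_ncard (s := {n | (fun (v : Fin r → _) (i : Fin r) => T (v i))^[n] v ∈
      P ⁻¹' Metric.ball (P v) (1 / 4)} ∩ Icc 0 N)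
    (t := insert 0 {n : ℕ | 1 ≤ n ∧ n ≤ N ∧ (T ^ n) (P v) ∈ Metric.ball (P v) (1 / 4)})
    (fun n hn => (n.eq_zero_or_pos).imp id fun k => ⟨k, hn.2.2, it n ▸ hn.1⟩)
    (((finite_Iic N).subset fun n hn => hn.2.1).insert _)).trans (ncard_insert_le _ _)
  rw [prop, lt_div_iff₀ (by positivity)] at h6
  have c2 := h6.trans_le (Nat.cast_le.2 c)
  have c3 := hM N h7
  have : (M₁ : ℝ) < N := by exact_mod_cast h8
  rw [div_lt_iff₀ (by positivity)] at hM1
  rw [Nat.cast_add, Nat.cast_one] at c2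
  nlinarith [add_lt_add_left c3 1 |>.trans' c2]

end Pool.Agent.Results.MP_cd1425_an.Frequent
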