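import Pool.Agent.H.MP_3dc43d_an.A

open Filter Topology Set Pool.Agent.H.MP_3dc43d_an

namespace Pool.Agent.Results.MP_cd1425_an.Uniform

/-- uniformly recurrent points: all return sets are syndetic -/
def URec {X : Type} [TopologicalSpace X] (T : X → X) : Set X :=
  {x | ∀ U ∈ 𝓝 x, ∃ g : ℕ, ∀ m : ℕ, ∃ n : ℕ, m ≤ n ∧ n ≤ m + g ∧ T^[n] x ∈ U}

theorem result (X : Type) [TopologicalSpace X] [TopologicalSpace.IsCompletelyMetrizableSpace X]
    (T : X → X) (hc : Continuous T) (hT : Dense (URec T)) (r : ℕ) :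
    Dense (URec fun (v : Fin r → X) (i : Fin r) => T (v i)) := by
  let _ := TopologicalSpace.completelyMetrizableMetric X
  have := TopologicalSpace.complete_completelyMetrizableMetric X
  obtain ⟨L, hne, hcl, hinv, hmin⟩ := exists_minimal sh sh_cont
  have hsyn : ∀ x ∈ URec T, ∀ U ∈ 𝓝 x,
      ({u : Ultrafilter ℕ | {k | T^[k] x ∈ U} ∈ u} ∩ L).Nonempty := by
    intro x hx U hU
    obtain ⟨N, hN⟩ := hx U hU
    obtain ⟨q, hq⟩ := hne
    have : (⋃ j ∈ Iic N, {k | T^[k + j] x ∈ U}) ∈ q := by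
      refine Filter.univ_mem' fun m => ?_
      obtain ⟨n, h1, h2, h3⟩ := hN m
      refine mem_iUnion₂.2 ⟨n - m, by simp; omega, ?_⟩
      rwa [mem_ofPred_eq, Nat.add_sub_cancel' h1]
    obtain ⟨j, -, hj⟩ := (Ultrafilter.finite_biUnion_mem_iff (finite_Iic N)).1 this
    exact ⟨sh^[j] q, (mem_sh j q _).2 hj, hinv.iterate j hq⟩
  have hlim : ∀ {Y : Type} [TopologicalSpace Y] {S : Y → Y} (_ : Continuous S) (p : Ultrafilter ℕ)
      (x y : Y), Tendsto (fun k => S^[k] x) p (𝓝 y) →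
      ∀ (n : ℕ) (V : Set Y), IsClosed V → {k | S^[k] x ∈ V} ∈ sh^[n] p → S^[n] y ∈ V := by
    intro Y _ S hS p x y h n V hV hn
    rw [mem_sh] at hn
    refine hV.mem_of_tendsto (((hS.iterate n).tendsto y).comp h) ?_
    filter_upwards [hn] with k hk
    rwa [add_comm, Function.iterate_add_apply] at hk
  have : CompactSpace L := isCompact_iff_compactSpace.1 hcl.isCompact
  have : Nonempty L := hne.to_subtype
  refine Dense.of_closure ((dense_pi univ fun _ _ => hT).mono fun x hx => ?_)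
  let G : Fin r × ℕ → Set L := fun i =>
    {u | ∃ z : X, {k | T^[k] (x i.1) ∈ Metric.ball z (1 / ((i.2 : ℝ) + 1))} ∈ (u : Ultrafilter ℕ)}
  have hGo : ∀ i, IsOpen (G i) := by
    intro i
    simp only [G, ofPred_exists]
    exact isOpen_iUnion fun z => (ultrafilter_isOpen_basic _).preimage continuous_subtype_val
  have hGd : ∀ i, Dense (G i) := by
    rintro ⟨i, k⟩
    refine dense_iff_inter_open.2 ?_
    rintro _ ⟨O, hO, rfl⟩ ⟨u, hu⟩
    obtain ⟨N, hN⟩ := hmin O hO ⟨u, hu, u.2⟩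
    have hU : (⋂ n ∈ Iic N, T^[n] ⁻¹' Metric.ball (T^[n] (x i)) (1 / ((k : ℝ) + 1))) ∈ 𝓝 (x i) := by
      refine (biInter_mem (finite_Iic N)).2 fun n _ => ?_
      exact (hc.iterate n).continuousAt.preimage_mem_nhds (Metric.ball_mem_nhds _ (by positivity))
    obtain ⟨q, hq1, hq2⟩ := hsyn _ (hx i trivial) _ hU
    obtain ⟨n, hn, hnO⟩ := hN q hq2
    refine ⟨⟨sh^[n] q, hinv.iterate n hq2⟩, hnO, T^[n] (x i), ?_⟩
    change _ ∈ sh^[n] q
    rw [mem_sh]
    refine Filter.mem_of_superset hq1 fun m hm => ?_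
    have := mem_iInter₂.1 hm n hn
    simp only [mem_ofPred_eq]
    rw [add_comm m n, Function.iterate_add_apply]
    exact this
  obtain ⟨p, hp⟩ := (dense_iInter_of_isOpen hGo hGd).nonempty
  have hex : ∀ i, ∃ y, Tendsto (fun k => T^[k] (x i)) (p : Ultrafilter ℕ) (𝓝 y) := by
    intro i
    refine cauchy_map_iff_exists_tendsto.1 ?_
    refine Metric.cauchy_iff.2 ⟨inferInstance, fun ε hε => ?_⟩
    obtain ⟨k, hk⟩ := exists_nat_one_div_lt (half_pos hε)
    obtain ⟨z, hz⟩ := mem_iInter.1 hp (i, k)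
    refine ⟨_, hz, fun a ha b hb => ?_⟩
    have := dist_triangle_right a b z
    rw [Metric.mem_ball] at ha hb
    linarith
  choose y hy using hex
  set S := fun (v : Fin r → X) (i : Fin r) => T (v i)
  have hS : Continuous S := continuous_pi fun i => hc.comp (continuous_apply i)
  have it (k : ℕ) (v : Fin r → X) : S^[k] v = fun i => T^[k] (v i) := by
    induction k with
    | zero => rfl
    | succ k ih => simp only [Function.iterate_succ_apply', ih, S]
  rw [mem_closure_iff_nhds]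
  intro U hU
  rw [nhds_pi, Filter.mem_pi] at hU
  obtain ⟨I, -, W, hW, hWU⟩ := hU
  have key (i) : ∃ n, T^[n] (y i) ∈ W i := by
    obtain ⟨V, hV, hVc, hVU⟩ := exists_mem_nhds_isClosed_subset (hW i)
    obtain ⟨N, hN⟩ := hmin _ (ultrafilter_isOpen_basic _) (hsyn _ (hx i trivial) V hV)
    obtain ⟨n, -, hn⟩ := hN p p.2
    exact ⟨n, hVU (hlim hc p _ _ (hy i) n V hVc hn)⟩
  choose n hn using key
  refine ⟨fun i => T^[n i] (y i), hWU fun i _ => hn i, fun U hU => ?_⟩
  have hx : Tendsto (fun k => S^[k] fun i => T^[n i] (x i)) (p : Ultrafilter ℕ)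
      (𝓝 fun i => T^[n i] (y i)) := tendsto_pi_nhds.2 fun i =>
    (((hc.iterate (n i)).tendsto _).comp (hy i)).congr fun k => by
      rw [it, Function.comp_apply, ← Function.iterate_add_apply, add_comm,
        Function.iterate_add_apply]
  obtain ⟨V, hV, hVc, hVU⟩ := exists_mem_nhds_isClosed_subset hU
  obtain ⟨N, hN⟩ := hmin _ (ultrafilter_isOpen_basic {k | S^[k] (fun i => T^[n i] (x i)) ∈ V})
    ⟨p, hx hV, p.2⟩
  refine ⟨N, fun m => ?_⟩
  obtain ⟨l, hl, hl'⟩ := hN (sh^[m] p) (hinv.iterate _ p.2)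
  rw [← Function.iterate_add_apply] at hl'
  exact ⟨l + m, by omega, by omega, hVU (hlim hS p _ _ hx _ V hVc hl')⟩

end Pool.Agent.Results.MP_cd1425_an.Uniform
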