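import Pool.Agent.H.MP_cd1425_an.E
import Pool.Agent.Results.MP_cd1425_an.Uniform
import Pool.Agent.Results.MP_cd1425_an.Frequent

open Filter Topology Set

namespace Pool.Agent.Results.MP_cd1425_an.Full

/-- upper Banach density -/
noncomputable def bd (A : Set ℕ) : ℝ :=
  limsup (fun N : ℕ => ⨆ m : ℕ, ((A ∩ Icc m (m + N)).ncard : ℝ) / (N + 1)) atTop

/-- reiteratively recurrent points -/
def RRec {X : Type} [TopologicalSpace X] (T : X → X) : Set X :=
  {x | ∀ U ∈ 𝓝 x, 0 < bd {n | T^[n] x ∈ U}}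

theorem result :
    (∀ (X : Type) [TopologicalSpace X] [TopologicalSpace.IsCompletelyMetrizableSpace X] (T : X → X),
      Continuous T → ∀ r : ℕ,
        (Dense (RRec T) → Dense (RRec fun (v : Fin r → X) (i : Fin r) => T (v i))) ∧
        (Dense (Uniform.URec T) → Dense (Uniform.URec fun (v : Fin r → X) (i : Fin r) => T (v i)))) ∧
    ∀ (𝕜 : Type) [RCLike 𝕜], ∃ (X : Type) (_ : NormedAddCommGroup X) (_ : NormedSpace 𝕜 X)
      (_ : CompleteSpace X) (T : X →L[𝕜] X), Dense (Frequent.FRec T) ∧ Dense (Frequent.UFRec T) ∧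
        ∀ r : ℕ, 2 ≤ r → ¬ Dense (Frequent.FRec fun (v : Fin r → X) (i : Fin r) => T (v i)) ∧
          ¬ Dense (Frequent.UFRec fun (v : Fin r → X) (i : Fin r) => T (v i)) := by
  have e {X : Type} [TopologicalSpace X] (T : X → X) : RRec T = {x | H.MP_cd1425_an.RR T x} :=
    Set.ext fun x => forall₂_congr fun U _ => H.MP_cd1425_an.ps_iff'.symm
  refine ⟨fun X _ _ T hT r => ⟨fun h => ?_, fun h => Uniform.result X T hT h r⟩, Frequent.result⟩
  rw [e] at h ⊢
  exact H.MP_cd1425_an.sums hT h r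

end Pool.Agent.Results.MP_cd1425_an.Full
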